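import Pool.Agent.Helper51.PP.Spec

/-!
# Swarm PC, part CH8: entropy upper bound by the first moment
-/

set_option autoImplicit false

namespace Pool.Agent.Helper70.PC.CH8

open Pool.Agent.Helper51.PP
open scoped BigOperators

/-- Gibbs inequality pointwise -/
theorem gibbs (p L q : ℝ) (hp : 0 ≤ p) (hq : q = Real.exp (-L)) :
    Real.negMulLog p ≤ p * L + (q - p) := by
  rcases hp.eq_or_lt with h0 | h0
  · subst h0
    simp [Real.negMulLog, hq, (Real.exp_pos (-L)).le]
  · have hqpos : 0 < q := by rw [hq]; exact Real.exp_pos _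
    have h1 : Real.log (q / p) ≤ q / p - 1 := Real.log_le_sub_one_of_pos (by positivity)
    have h2 : Real.log (q / p) = -L - Real.log p := by
      rw [Real.log_div hqpos.ne' h0.ne', hq, Real.log_exp]
    rw [h2] at h1
    have h3 : p * (-L - Real.log p) ≤ p * (q / p - 1) := mul_le_mul_of_nonneg_left h1 h0.le
    have h4 : p * (q / p - 1) = q - p := by field_simp
    rw [h4] at h3
    unfold Real.negMulLog
    nlinarith

theorem main (h1 : S_CH1) (h2 : S_ZS) : S_CH8 := by
  intro X E _ _ nx rev hrev d pos hpos x0 n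
  obtain ⟨hp0, hfin, hsum, hexp, -, -⟩ := h1 nx rev hrev x0 n
  set p : X → ℝ := pk nx x0 n with hpdef
  set M : ℝ := PRn nx (fun y => N1 (pos y - pos x0)) n x0 with hM
  have hN0 : ∀ v : Fin d → ℤ, 0 ≤ N1 v := fun v => Finset.sum_nonneg (fun i _ => abs_nonneg _)
  set T : Finset X := hfin.toFinset with hT
  have hout : ∀ y, y ∉ T → p y = 0 := by
    intro y hy
    by_contra hne
    exact hy ((Set.Finite.mem_toFinset hfin).2 hne)
  have hMe : M = ∑ y ∈ T, p y * N1 (pos y - pos x0) := by
    rw [hM, hexp]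
    exact tsum_eq_sum (fun y hy => by rw [hout y hy, zero_mul])
  have hS1 : ∑ y ∈ T, p y = 1 := by
    rw [← hsum]
    exact (tsum_eq_sum (fun y hy => hout y hy)).symm
  have hent : ent nx x0 n = ∑ y ∈ T, Real.negMulLog (p y) := by
    unfold ent
    exact tsum_eq_sum (fun y hy => by
      have : pk nx x0 n y = 0 := hout y hy
      rw [this]; simp)
  have hM0 : 0 ≤ M := by
    rw [hMe]
    exact Finset.sum_nonneg (fun y _ => mul_nonneg (hp0 y) (hN0 _))
  set s : ℝ := 1 / (1 + M) with hs
  have hspos : 0 < s := by rw [hs]; positivity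
  obtain ⟨hsm, hle⟩ := h2 d s hspos
  set Z : ℝ := ∑' v : Fin d → ℤ, Real.exp (-(s * N1 v)) with hZ
  have hZpos : 0 < Z := by
    rw [hZ]
    exact hsm.tsum_pos (fun v => (Real.exp_pos _).le) 0 (Real.exp_pos _)
  -- the sum of the weights over T
  have hq : ∑ y ∈ T, Real.exp (-(s * N1 (pos y - pos x0))) ≤ Z := by
    have hinj : Function.Injective (fun y : X => pos y - pos x0) := by
      intro a b hab
      exact hpos (by simpa using hab)
    have : ∑ y ∈ T, Real.exp (-(s * N1 (pos y - pos x0))) =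
        ∑ v ∈ T.map ⟨_, hinj⟩, Real.exp (-(s * N1 v)) := by
      rw [Finset.sum_map]
      rfl
    rw [this]
    exact hsm.sum_le_tsum _ (fun v _ => (Real.exp_pos _).le)
  rw [hent]
  have hstep : ∀ y ∈ T, Real.negMulLog (p y) ≤ p y * (s * N1 (pos y - pos x0) + Real.log Z) +
      (Real.exp (-(s * N1 (pos y - pos x0))) / Z - p y) := by
    intro y _
    refine gibbs (p y) _ _ (hp0 y) ?_
    rw [neg_add, Real.exp_add, Real.exp_neg (Real.log Z), Real.exp_log hZpos]
    rfl
  have hA := Finset.sum_le_sum hstep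
  rw [Finset.sum_add_distrib, Finset.sum_sub_distrib, hS1, ← Finset.sum_div] at hA
  have hB : ∑ y ∈ T, p y * (s * N1 (pos y - pos x0) + Real.log Z) = s * M + Real.log Z := by
    have : ∀ y ∈ T, p y * (s * N1 (pos y - pos x0) + Real.log Z) =
        s * (p y * N1 (pos y - pos x0)) + p y * Real.log Z := fun y _ => by ring
    rw [Finset.sum_congr rfl this, Finset.sum_add_distrib, ← Finset.mul_sum, ← hMe,
      ← Finset.sum_mul, hS1, one_mul]
  have hC : (∑ y ∈ T, Real.exp (-(s * N1 (pos y - pos x0)))) / Z ≤ 1 := by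
    rw [div_le_one hZpos]; exact hq
  have hsM : s * M ≤ 1 := by
    rw [hs, one_div, inv_mul_le_iff₀ (by linarith)]
    linarith
  have hlogZ : Real.log Z ≤ d * Real.log (1 + M) + d * Real.log 3 := by
    have h3 : Z ≤ (3 * (1 + M)) ^ d := by
      refine hle.trans (pow_le_pow_left₀ (by positivity) ?_ d)
      rw [hs]
      have : 2 / (1 / (1 + M)) = 2 * (1 + M) := by
        field_simp
      rw [this]; linarith
    have h4 := Real.log_le_log hZpos h3
    rw [Real.log_pow, Real.log_mul (by norm_num) (by linarith)] at h4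
    linarith
  linarith

end Pool.Agent.Helper70.PC.CH8
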