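import Pool.Agent.Helper51.PP.Spec

/-!
# Swarm PC, part ZS: the partition function of the exponential weight on `ℤ^d`
-/

set_option autoImplicit false

namespace Pool.Agent.Helper70.PC.ZS

open Pool.Agent.Helper51.PP
open scoped BigOperators

theorem hasSum_pi (f : ℤ → ℝ) (hf0 : ∀ k, 0 ≤ f k) (hf : Summable f) (d : ℕ) :
    HasSum (fun v : Fin d → ℤ => ∏ i, f (v i)) ((∑' k, f k) ^ d) := by
  induction d with
  | zero =>
      have h := hasSum_unique (fun v : Fin 0 → ℤ => ∏ i, f (v i))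
      simpa using h
  | succ d ih =>
      have hg0 : (0 : (Fin d → ℤ) → ℝ) ≤ fun v : Fin d → ℤ => ∏ i, f (v i) :=
        fun v => Finset.prod_nonneg (fun i _ => hf0 (v i))
      have hf0' : (0 : ℤ → ℝ) ≤ f := fun k => hf0 k
      obtain ⟨g, hg⟩ : ∃ g : (Fin d → ℤ) → ℝ, g = fun v : Fin d → ℤ => ∏ i, f (v i) := ⟨_, rfl⟩
      rw [← hg] at ih hg0
      have h1 : Summable (fun x : ℤ × (Fin d → ℤ) => f x.1 * g x.2) :=
        Summable.mul_of_nonneg hf ih.summable hf0' hg0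
      have h2 : HasSum (fun x : ℤ × (Fin d → ℤ) => f x.1 * g x.2)
          ((∑' k, f k) * (∑' k, f k) ^ d) := HasSum.mul hf.hasSum ih h1
      have h3 : HasSum ((fun v : Fin (d + 1) → ℤ => ∏ i, f (v i)) ∘
          (Fin.consEquiv (fun _ : Fin (d + 1) => ℤ))) ((∑' k, f k) * (∑' k, f k) ^ d) := by
        have he : ((fun v : Fin (d + 1) → ℤ => ∏ i, f (v i)) ∘
            (Fin.consEquiv (fun _ : Fin (d + 1) => ℤ))) =
            fun x : ℤ × (Fin d → ℤ) => f x.1 * g x.2 := by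
          funext x
          rw [hg]
          simp [Fin.consEquiv, Fin.prod_univ_succ]
        rw [he]
        exact h2
      have h4 := (Equiv.hasSum_iff (Fin.consEquiv (fun _ : Fin (d + 1) => ℤ))).1 h3
      rw [pow_succ']
      exact h4

theorem one_dim (s : ℝ) (hs : 0 < s) : Summable (fun k : ℤ => Real.exp (-(s * |(k : ℝ)|))) ∧
    ∑' k : ℤ, Real.exp (-(s * |(k : ℝ)|)) ≤ 1 + 2 / s := by
  set r : ℝ := Real.exp (-s) with hr
  have hr0 : 0 < r := Real.exp_pos _
  have hr1 : r < 1 := by rw [hr, ← Real.exp_zero]; exact Real.exp_lt_exp.2 (by linarith)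
  have hg := hasSum_geometric_of_lt_one hr0.le hr1
  have ha : HasSum (fun n : ℕ => Real.exp (-(s * |(((n : ℕ) : ℤ) : ℝ)|))) (1 - r)⁻¹ := by
    refine hg.congr_fun ?_
    intro n
    rw [hr, ← Real.exp_nat_mul]
    congr 1
    have : |(((n : ℕ) : ℤ) : ℝ)| = (n : ℝ) := by
      rw [Int.cast_natCast]; exact abs_of_nonneg (Nat.cast_nonneg n)
    rw [this]; ring
  have hb : HasSum (fun n : ℕ => Real.exp (-(s * |((-((n : ℤ) + 1) : ℤ) : ℝ)|))) (r * (1 - r)⁻¹) := by
    refine (hg.mul_left r).congr_fun ?_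
    intro n
    rw [hr, ← Real.exp_nat_mul, ← Real.exp_add]
    congr 1
    have : |((-((n : ℤ) + 1) : ℤ) : ℝ)| = (n : ℝ) + 1 := by
      push_cast
      rw [abs_neg]
      exact abs_of_nonneg (by positivity)
    rw [this]; ring
  have hh := HasSum.of_nat_of_neg_add_one (f := fun k : ℤ => Real.exp (-(s * |(k : ℝ)|))) ha hb
  refine ⟨hh.summable, ?_⟩
  rw [hh.tsum_eq]
  have h1r : 0 < 1 - r := by linarith
  have hexp : r * Real.exp s = 1 := by rw [hr, ← Real.exp_add]; simp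
  have hes : s + 1 ≤ Real.exp s := Real.add_one_le_exp s
  -- r (1+s) ≤ 1
  have h2 : r * (s + 1) ≤ 1 := le_of_le_of_eq (mul_le_mul_of_nonneg_left hes hr0.le) hexp
  have h3 : r * (1 - r)⁻¹ ≤ 1 / s := by
    rw [← div_eq_mul_inv, div_le_div_iff₀ h1r hs]
    linarith
  have h4 : (1 - r)⁻¹ = 1 + r * (1 - r)⁻¹ := by
    field_simp
    ring
  have h5 : 2 / s = 1 / s + 1 / s := by ring
  linarith

theorem main : S_ZS := by
  intro d s hs
  obtain ⟨h1, h2⟩ := one_dim s hs
  have h := hasSum_pi (fun k : ℤ => Real.exp (-(s * |(k : ℝ)|))) (fun k => (Real.exp_pos _).le) h1 d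
  have he : (fun v : Fin d → ℤ => ∏ i, Real.exp (-(s * |((v i : ℤ) : ℝ)|))) =
      fun v => Real.exp (-(s * N1 v)) := by
    funext v
    rw [← Real.exp_sum]
    congr 1
    unfold N1
    rw [Finset.mul_sum, ← Finset.sum_neg_distrib]
  rw [he] at h
  refine ⟨h.summable, ?_⟩
  rw [h.tsum_eq]
  exact pow_le_pow_left₀ (tsum_nonneg (fun k => (Real.exp_pos _).le)) h2 d

end Pool.Agent.Helper70.PC.ZS
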